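import Pool.Agent.H1.LP.Targets

/-!
# LP module TYP (MP_c62aed_lc): a table typical for a family of dense functions
-/

namespace Pool.Agent.H37.LP

open Finset Pool.Agent.H1.LP

/-- the tables which are bad for `(I, V, l)` -/
noncomputable def bad {p B : ℕ} [NeZero p] {Q : Type} [Fintype Q] [DecidableEq Q] (g : ℕ)
    (I : Finset (Fin B)) (V : (Fin B → Q) → ℝ) (l : Fin B → ZMod p) :
    Finset (Fin B → Q → ZMod p) := by
  classical
  exact univ.filter fun al => (∀ j ∈ I, l j = 0) ∧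
    2 * ∑ x, V x < ‖FS V l al‖ * 2 ^ (g * (supp l).card)

theorem bad_card (hM : S_MOM) {p B s g : ℕ} [Fact p.Prime] {Q : Type} [Fintype Q] [DecidableEq Q]
    {D : ℝ} {I : Finset (Fin B)} {V : (Fin B → Q) → ℝ} (hs : 0 < s) (hD : 8 * s * 4 ^ g ≤ D)
    (hV : Dense D I V) (l : Fin B → ZMod p) :
    ((bad g I V l).card : ℝ) * 4 ^ s ≤ (Fintype.card (Fin B → Q → ZMod p) : ℝ) := by
  classical
  have hs' : (0 : ℝ) < s := by exact_mod_cast hs
  have hcard0 : (0 : ℝ) ≤ (Fintype.card (Fin B → Q → ZMod p) : ℝ) := Nat.cast_nonneg _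
  by_cases hl : ∀ j ∈ I, l j = 0
  swap
  · have h1 : bad g I V l = ∅ := by
      unfold bad
      rw [Finset.filter_eq_empty_iff]
      intro al _ h
      exact hl h.1
    rw [h1]
    simp
  have hS0 : 0 ≤ ∑ x, V x := Finset.sum_nonneg fun x _ => hV.1 x
  rcases hS0.eq_or_lt with hS | hS
  · have h1 : bad g I V l = ∅ := by
      unfold bad
      rw [Finset.filter_eq_empty_iff]
      intro al _ h
      have h2 : ∀ x, V x = 0 := fun x =>
        (Finset.sum_eq_zero_iff_of_nonneg fun x _ => hV.1 x).1 hS.symm x (Finset.mem_univ x)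
      have h3 : FS V l al = 0 := by
        unfold FS
        refine Finset.sum_eq_zero fun x _ => ?_
        rw [h2 x]
        simp
      have h4 := h.2
      rw [h3, ← hS] at h4
      simp at h4
    rw [h1]
    simp
  have h4g : (1 : ℝ) ≤ 4 ^ g := one_le_pow₀ (by norm_num)
  have h2s : 2 * (s : ℝ) ≤ D := by nlinarith
  have hmom := hM p B s Q D I V l hs h2s hV hl
  have hDs : (4 : ℝ) ^ g ≤ D / (8 * s) := by
    rw [le_div_iff₀ (by positivity)]
    linarith
  set S : ℝ := ∑ x, V x with hSdef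
  set L : ℕ := (supp l).card with hLdef
  have h5 : ((4 : ℝ) ^ g) ^ (s * L) ≤ (D / (8 * s)) ^ (s * L) :=
    pow_le_pow_left₀ (by positivity) hDs _
  have hsum0 : 0 ≤ ∑ al : Fin B → Q → ZMod p, ‖FS V l al‖ ^ (2 * s) :=
    Finset.sum_nonneg fun _ _ => by positivity
  have h6 : (∑ al : Fin B → Q → ZMod p, ‖FS V l al‖ ^ (2 * s)) * ((4 : ℝ) ^ g) ^ (s * L)
      ≤ (Fintype.card (Fin B → Q → ZMod p) : ℝ) * S ^ (2 * s) :=
    (mul_le_mul_of_nonneg_left h5 hsum0).trans hmom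
  have h7 : ∀ al ∈ bad g I V l, (4 : ℝ) ^ s * S ^ (2 * s)
      ≤ ‖FS V l al‖ ^ (2 * s) * ((4 : ℝ) ^ g) ^ (s * L) := by
    intro al hal
    have h8 : 2 * S < ‖FS V l al‖ * 2 ^ (g * L) := by
      unfold bad at hal
      exact (Finset.mem_filter.1 hal).2.2
    have h9 : (2 * S) ^ (2 * s) ≤ (‖FS V l al‖ * 2 ^ (g * L)) ^ (2 * s) :=
      pow_le_pow_left₀ (by positivity) h8.le _
    have h10 : (2 * S) ^ (2 * s) = (4 : ℝ) ^ s * S ^ (2 * s) := by
      rw [mul_pow, pow_mul (2 : ℝ) 2 s]; norm_num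
    have h11 : (‖FS V l al‖ * 2 ^ (g * L)) ^ (2 * s)
        = ‖FS V l al‖ ^ (2 * s) * ((4 : ℝ) ^ g) ^ (s * L) := by
      rw [mul_pow]
      congr 1
      rw [← pow_mul, ← pow_mul]
      have : (4 : ℝ) = 2 ^ 2 := by norm_num
      rw [this, ← pow_mul]
      congr 1
      ring
    rw [← h10, ← h11]
    exact h9
  have h12 : ((bad g I V l).card : ℝ) * ((4 : ℝ) ^ s * S ^ (2 * s))
      ≤ (∑ al : Fin B → Q → ZMod p, ‖FS V l al‖ ^ (2 * s)) * ((4 : ℝ) ^ g) ^ (s * L) := by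
    rw [Finset.sum_mul]
    calc ((bad g I V l).card : ℝ) * ((4 : ℝ) ^ s * S ^ (2 * s))
        = ∑ _al ∈ bad g I V l, (4 : ℝ) ^ s * S ^ (2 * s) := by
          rw [Finset.sum_const, nsmul_eq_mul]
      _ ≤ ∑ al ∈ bad g I V l, ‖FS V l al‖ ^ (2 * s) * ((4 : ℝ) ^ g) ^ (s * L) :=
          Finset.sum_le_sum h7
      _ ≤ ∑ al, ‖FS V l al‖ ^ (2 * s) * ((4 : ℝ) ^ g) ^ (s * L) :=
          Finset.sum_le_sum_of_subset_of_nonneg (Finset.subset_univ _)
            fun _ _ _ => by positivity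
  have h13 : 0 < S ^ (2 * s) := by positivity
  have h14 := h12.trans h6
  have h15 : ((bad g I V l).card : ℝ) * 4 ^ s * S ^ (2 * s)
      ≤ (Fintype.card (Fin B → Q → ZMod p) : ℝ) * S ^ (2 * s) := by
    calc _ = ((bad g I V l).card : ℝ) * ((4 : ℝ) ^ s * S ^ (2 * s)) := by ring
      _ ≤ _ := h14
  exact le_of_mul_le_mul_right h15 h13

theorem typ (hM : S_MOM) : S_TYP := by
  classical
  intro p B s g _ Q _ _ D ι _ I V hs hD hV hlt
  by_contra hcon
  push Not at hcon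
  have hcover : (univ : Finset (Fin B → Q → ZMod p)) ⊆
      (univ : Finset (ι × (Fin B → ZMod p))).biUnion fun q => bad g (I q.1) (V q.1) q.2 := by
    intro al _
    obtain ⟨i, hi⟩ := hcon al
    unfold Typ at hi
    push Not at hi
    obtain ⟨l, -, hl, hb⟩ := hi
    rw [Finset.mem_biUnion]
    refine ⟨(i, l), Finset.mem_univ _, ?_⟩
    unfold bad
    rw [Finset.mem_filter]
    exact ⟨Finset.mem_univ _, hl, hb⟩
  have h1 : (Fintype.card (Fin B → Q → ZMod p) : ℝ)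
      ≤ ∑ q : ι × (Fin B → ZMod p), ((bad g (I q.1) (V q.1) q.2).card : ℝ) := by
    have h2 := (Finset.card_le_card hcover).trans Finset.card_biUnion_le
    rw [Finset.card_univ] at h2
    exact_mod_cast h2
  have h3 : (Fintype.card (Fin B → Q → ZMod p) : ℝ) * 4 ^ s
      ≤ ((Fintype.card ι : ℝ) * p ^ B) * (Fintype.card (Fin B → Q → ZMod p) : ℝ) := by
    calc (Fintype.card (Fin B → Q → ZMod p) : ℝ) * 4 ^ s
        ≤ (∑ q : ι × (Fin B → ZMod p), ((bad g (I q.1) (V q.1) q.2).card : ℝ)) * 4 ^ s :=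
          mul_le_mul_of_nonneg_right h1 (by positivity)
      _ = ∑ q : ι × (Fin B → ZMod p), ((bad g (I q.1) (V q.1) q.2).card : ℝ) * 4 ^ s := by
          rw [Finset.sum_mul]
      _ ≤ ∑ _q : ι × (Fin B → ZMod p), (Fintype.card (Fin B → Q → ZMod p) : ℝ) :=
          Finset.sum_le_sum fun q _ => bad_card hM hs hD (hV q.1) q.2
      _ = ((Fintype.card ι : ℝ) * p ^ B) * (Fintype.card (Fin B → Q → ZMod p) : ℝ) := by
          rw [Finset.sum_const, nsmul_eq_mul, Finset.card_univ, Fintype.card_prod,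
            Fintype.card_fun, ZMod.card, Fintype.card_fin]
          push_cast
          ring
  have h4 : (0 : ℝ) < (Fintype.card (Fin B → Q → ZMod p) : ℝ) := by
    exact_mod_cast Fintype.card_pos
  nlinarith

end Pool.Agent.H37.LP
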